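import Pool.Agent.W797.BH.En2

/-!
# Project BH, task EN (helper797): the local Dirichlet series is rarely tiny in a whole box
-/

set_option autoImplicit false

namespace Pool.Agent.W797.BH

open Complex MeasureTheory Filter Topology Pool.Agent.W475.BH

/-- Chebyshev's inequality for a continuous function -/
theorem cheb (F : ℝ → ℂ) (hF : Continuous F) (T m0 X : ℝ) (hT : 0 ≤ T) (hm : 0 < m0)
    (hX : ∫ t in T..(2 * T), ‖F t‖ ^ 2 ≤ X) :
    volume {t : ℝ | T ≤ t ∧ t ≤ 2 * T ∧ m0 / 2 ≤ ‖F t‖} ≤ ENNReal.ofReal (4 / m0 ^ 2 * X) := by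
  set μ : Measure ℝ := volume.restrict (Set.Icc T (2 * T)) with hμ
  have hint : Integrable (fun t => ‖F t‖ ^ 2) μ := by
    have : IntegrableOn (fun t => ‖F t‖ ^ 2) (Set.Icc T (2 * T)) volume :=
      ((hF.norm.pow 2).continuousOn).integrableOn_compact isCompact_Icc
    exact this
  have h1 := mul_meas_ge_le_integral_of_nonneg (μ := μ) (f := fun t => ‖F t‖ ^ 2)
    (Filter.Eventually.of_forall (fun t => by positivity)) hint ((m0 / 2) ^ 2)
  have h2 : ∫ t, ‖F t‖ ^ 2 ∂μ ≤ X := by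
    rw [hμ, integral_Icc_eq_integral_Ioc, ← intervalIntegral.integral_of_le (by linarith)]
    exact hX
  have hsub : {t : ℝ | T ≤ t ∧ t ≤ 2 * T ∧ m0 / 2 ≤ ‖F t‖} ⊆
      {t : ℝ | (m0 / 2) ^ 2 ≤ ‖F t‖ ^ 2} ∩ Set.Icc T (2 * T) := by
    rintro t ⟨h3, h4, h5⟩
    refine ⟨?_, h3, h4⟩
    show (m0 / 2) ^ 2 ≤ ‖F t‖ ^ 2
    gcongr
  have hmeas : MeasurableSet {t : ℝ | (m0 / 2) ^ 2 ≤ ‖F t‖ ^ 2} :=
    measurableSet_le measurable_const (hF.norm.pow 2).measurable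
  have h3 : volume ({t : ℝ | (m0 / 2) ^ 2 ≤ ‖F t‖ ^ 2} ∩ Set.Icc T (2 * T)) =
      μ {t : ℝ | (m0 / 2) ^ 2 ≤ ‖F t‖ ^ 2} := by
    rw [hμ, Measure.restrict_apply hmeas]
  refine (measure_mono hsub).trans ?_
  rw [h3]
  have : IsFiniteMeasure μ := by
    rw [hμ]
    exact ⟨by rw [Measure.restrict_apply_univ]; exact measure_Icc_lt_top⟩
  have h4 : μ.real {t : ℝ | (m0 / 2) ^ 2 ≤ ‖F t‖ ^ 2} ≤ 4 / m0 ^ 2 * X := by
    have h5 : (m0 / 2) ^ 2 * μ.real {t : ℝ | (m0 / 2) ^ 2 ≤ ‖F t‖ ^ 2} ≤ X := h1.trans h2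
    have h6 : 0 < (m0 / 2) ^ 2 := by positivity
    rw [← le_div_iff₀' h6] at h5
    calc _ ≤ X / (m0 / 2) ^ 2 := h5
      _ = 4 / m0 ^ 2 * X := by
          field_simp
          try ring
  rw [← ENNReal.ofReal_toReal (measure_ne_top μ _)]
  exact ENNReal.ofReal_le_ofReal h4

theorem en (h1 : S_MER) (h2 : S_VAR) : S_EN := by
  intro κ hκ a b ω η ha hab hb hω hη
  set γ : ℝ := (b + 1 / 2) / 2 with hγ
  have hb0 : 0 < b := ha.trans hab
  have hbγ : b < γ := by rw [hγ]; linarith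
  have hγ2 : γ < 1 / 2 := by rw [hγ]; linarith
  have hγ0 : 0 < γ := hb0.trans hbγ
  obtain ⟨c, T1, hc, hT1, hmer⟩ := h1 a b ha hab
  obtain ⟨C, T2, hC, hT2, hvar⟩ := h2 κ hκ a b γ ha hab hbγ hγ2
  have hc0 : 0 < 1 - b / γ := by
    have : b / γ < 1 := (div_lt_one hγ0).mpr hbγ
    linarith
  -- the limits
  have hlog : Tendsto (fun T : ℝ => Real.log T) atTop atTop := Real.tendsto_log_atTop
  have ev1 : ∀ᶠ T : ℝ in atTop, 1 / ω ≤ Real.log T := hlog.eventually_ge_atTop _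
  have ev2 : ∀ᶠ T : ℝ in atTop, ω ≤ Real.log T := hlog.eventually_ge_atTop _
  have ev3 : ∀ᶠ T : ℝ in atTop, (2 + 2 / γ) / (κ * (1 - b / γ) ^ 2 * γ) ≤ Real.log T :=
    hlog.eventually_ge_atTop _
  have ev4 : ∀ᶠ T : ℝ in atTop, Real.log T < Real.exp (-(2 * κ)) * c / (4 * (b - a)) * T ^ (1 / 20 : ℝ) := by
    have h0 : (fun T : ℝ => Real.log T) =o[atTop] fun T : ℝ => T ^ (1 / 20 : ℝ) :=
      isLittleO_log_rpow_atTop (by norm_num)
    have hpos : 0 < Real.exp (-(2 * κ)) * c / (4 * (b - a)) / 2 := by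
      have : 0 < b - a := sub_pos.mpr hab
      positivity
    filter_upwards [h0.bound hpos, eventually_gt_atTop (1 : ℝ)] with T hT hT1
    have hl : 0 < Real.log T := Real.log_pos hT1
    have hTp : 0 < T ^ (1 / 20 : ℝ) := by positivity
    rw [Real.norm_eq_abs, Real.norm_eq_abs, abs_of_pos hl, abs_of_pos hTp] at hT
    nlinarith
  have ev5 : ∀ᶠ T : ℝ in atTop, 4 * Real.exp (4 * κ) * C / (c * ω * η) ≤ Real.log T := hlog.eventually_ge_atTop _
  have ev6 : ∀ᶠ T : ℝ in atTop, 4 * Real.exp (4 * κ) * C / (ω * η) ≤ Real.log T := hlog.eventually_ge_atTop _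
  have ev7 : ∀ᶠ T : ℝ in atTop, 2 * Real.exp (4 * κ) * C / (c ^ 2 * η) ≤ T := eventually_ge_atTop _
  have ev8 : ∀ᶠ T : ℝ in atTop, max T1 T2 ≤ T := eventually_ge_atTop _
  obtain ⟨T0, hT0⟩ := Filter.eventually_atTop.mp
    ((((((ev1.and ev2).and ev3).and ev4).and ev5).and ev6).and (ev7.and ev8))
  refine ⟨max 2 T0, le_max_left _ _, ?_⟩
  intro T hT
  have hT2' : 2 ≤ T := (le_max_left _ _).trans hT
  obtain ⟨⟨⟨⟨⟨⟨e1, e2⟩, e3⟩, e4⟩, e5⟩, e6⟩, e7, e8⟩ := hT0 T ((le_max_right _ _).trans hT)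
  have hTpos : 0 < T := by linarith
  set l := Real.log T with hl
  have hlpos : 0 < l := Real.log_pos (by linarith)
  set W : ℝ := ω * l with hW
  have hW1 : 1 ≤ W := by
    rw [hW]
    rw [div_le_iff₀ hω] at e1
    linarith
  have hWpos : 0 < W := by linarith
  have hW2 : W ≤ Real.log T ^ 2 := by
    rw [hW, sq]
    gcongr
  have hbig : 2 + 2 / γ ≤ κ * (1 - b / γ) ^ 2 * γ * Real.log T := by
    rw [div_le_iff₀ (by positivity)] at e3
    linarith
  have hP0 : c ≤ ∑ p ∈ PP a b T, 1 / (p : ℝ) := hmer T ((le_max_left _ _).trans e8)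
  set P0 : ℝ := ∑ p ∈ PP a b T, 1 / (p : ℝ) with hP0def
  have hP0pos : 0 < P0 := hc.trans_le hP0
  have hV := hvar T ((le_max_right _ _).trans e8) W hW1 hW2
  rw [← hP0def] at hV
  -- the sum
  set s : Finset ℕ := Finset.Icc 1 ⌊T ^ γ⌋₊ with hs
  have hs1 : ∀ n ∈ s, 1 ≤ n := fun n hn => (Finset.mem_Icc.mp hn).1
  have hPP : ∀ p ∈ PP a b T, 1 ≤ p := by
    intro p hp
    unfold PP at hp
    rw [Finset.mem_filter] at hp
    exact hp.2.1.one_lt.le
  have hPlog : ∀ p ∈ PP a b T, a * Real.log T + 1 ≤ Real.log p ∧ Real.log p ≤ b * Real.log T - 1 := by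
    intro p hp
    unfold PP at hp
    rw [Finset.mem_filter] at hp
    exact hp.2.2
  have hPs : ∀ p ∈ PP a b T, p ∈ s := by
    intro p hp
    rw [hs, Finset.mem_Icc]
    refine ⟨hPP p hp, ?_⟩
    unfold PP at hp
    rw [Finset.mem_filter, Finset.mem_range] at hp
    have h3 : ⌊T ^ b⌋₊ ≤ ⌊T ^ γ⌋₊ := by
      apply Nat.floor_le_floor
      exact Real.rpow_le_rpow_of_exponent_le (by linarith) hbγ.le
    omega
  set F : ℝ → ℂ := fun t => ∑ q ∈ (s ×ˢ PP a b T).filter (fun q => q.1 ≠ q.2),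
    aw κ (a * Real.log T) (b * Real.log T) W q.1 q.2 *
      cexp (-(I * t * (Real.log ((q.1 : ℝ) / q.2) : ℂ))) with hF
  have hFc : Continuous F := by
    rw [hF]
    fun_prop
  set m0 : ℝ := ∑ p ∈ PP a b T, 1 / (p : ℝ) * Gk κ (a * Real.log T) (b * Real.log T) (Real.log p) (Real.log p)
    with hm0
  have hm0low : 2 * Real.exp (-(2 * κ)) * P0 ≤ m0 := by
    rw [hm0, hP0def, Finset.mul_sum]
    apply Finset.sum_le_sum
    intro p hp
    have h3 := Gk_low κ (a * Real.log T) (b * Real.log T) (Real.log p) hκ (hPlog p hp).1 (hPlog p hp).2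
    calc 2 * Real.exp (-(2 * κ)) * (1 / (p : ℝ)) = 1 / (p : ℝ) * (2 * Real.exp (-(2 * κ))) := by ring
      _ ≤ _ := mul_le_mul_of_nonneg_left h3 (by positivity)
  have hm0pos : 0 < m0 := lt_of_lt_of_le (by positivity) hm0low
  -- decomposition
  have hdec : ∀ t : ℝ, ∑ q ∈ s ×ˢ PP a b T, aw κ (a * Real.log T) (b * Real.log T) W q.1 q.2 *
      cexp (-(I * t * (Real.log ((q.1 : ℝ) / q.2) : ℂ))) = F t + (m0 : ℂ) := by
    intro t
    rw [← Finset.sum_filter_add_sum_filter_not (s ×ˢ PP a b T) (fun q => q.1 ≠ q.2)]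
    congr 1
    have e : (s ×ˢ PP a b T).filter (fun q => ¬ q.1 ≠ q.2) = (PP a b T).image (fun p => (p, p)) := by
      ext ⟨n, p⟩
      simp only [Finset.mem_filter, Finset.mem_product, not_not, Finset.mem_image, Prod.mk.injEq]
      constructor
      · rintro ⟨⟨_, hp⟩, rfl⟩
        exact ⟨n, hp, rfl, rfl⟩
      · rintro ⟨x, hx, rfl, rfl⟩
        exact ⟨⟨hPs x hx, hx⟩, rfl⟩
    rw [e, Finset.sum_image (fun x _ y _ h => (Prod.mk.inj h).1), hm0, Complex.ofReal_sum]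
    apply Finset.sum_congr rfl
    intro p hp
    have hpr : (p : ℝ) ≠ 0 := by
      have := hPP p hp
      exact_mod_cast (by omega : p ≠ 0)
    rw [aw_diag κ _ _ W hWpos p (hPP p hp), div_self hpr, Real.log_one]
    simp
  -- the set
  have hsub : {t0 : ℝ | T ≤ t0 ∧ t0 ≤ 2 * T ∧ ∀ t lam : ℝ, t0 ≤ t → t ≤ t0 + ω * Real.log T →
      a * Real.log T ≤ lam → lam ≤ b * Real.log T → ‖SS κ lam t‖ ≤ T ^ (-(3 / 10) : ℝ)} ⊆
      {t : ℝ | T ≤ t ∧ t ≤ 2 * T ∧ m0 / 2 ≤ ‖F t‖} := by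
    rintro t0 ⟨h3, h4, h5⟩
    refine ⟨h3, h4, ?_⟩
    have hS : ∀ h lam : ℝ, 0 ≤ h → h ≤ W → a * Real.log T ≤ lam → lam ≤ b * Real.log T →
        ‖sn κ s lam (t0 + h)‖ ≤ 2 * T ^ (-(3 / 10) : ℝ) := by
      intro h lam hh0 hhW hlam1 hlam2
      have h6 := h5 (t0 + h) lam (by linarith) (by linarith) hlam1 hlam2
      have h7 := SS_tail κ b γ T lam (t0 + h) hκ hb0 hbγ hT2' hbig hlam2
      have h8 : T ^ (-1 : ℝ) ≤ T ^ (-(3 / 10) : ℝ) :=
        Real.rpow_le_rpow_of_exponent_le (by linarith) (by norm_num)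
      have h9 : ‖sn κ s lam (t0 + h)‖ ≤ ‖SS κ lam (t0 + h)‖ + ‖SS κ lam (t0 + h) - sn κ s lam (t0 + h)‖ := by
        have := norm_sub_norm_le (sn κ s lam (t0 + h)) (SS κ lam (t0 + h))
        rw [norm_sub_rev] at this
        linarith
      linarith
    have hR := R_norm κ (a * Real.log T) (b * Real.log T) W t0 (2 * T ^ (-(3 / 10) : ℝ)) (2 * T ^ (b / 2))
      s (PP a b T) hs1 hPP (by gcongr) hWpos (by positivity) hS
      (fun t lam => D_bound κ hκ a b T (by linarith) t lam)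
    rw [hdec] at hR
    have hsmall : (b * Real.log T - a * Real.log T) * (2 * T ^ (-(3 / 10) : ℝ) * (2 * T ^ (b / 2))) ≤ m0 / 2 := by
      have h6 : T ^ (b / 2) ≤ T ^ (1 / 4 : ℝ) :=
        Real.rpow_le_rpow_of_exponent_le (by linarith) (by linarith)
      have h7 : T ^ (-(3 / 10) : ℝ) * T ^ (1 / 4 : ℝ) * T ^ (1 / 20 : ℝ) = 1 := by
        rw [← Real.rpow_add hTpos, ← Real.rpow_add hTpos]
        norm_num
      have hba : 0 < b - a := sub_pos.mpr hab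
      have h8 : (b * Real.log T - a * Real.log T) * (2 * T ^ (-(3 / 10) : ℝ) * (2 * T ^ (b / 2))) ≤
          4 * (b - a) * (T ^ (-(3 / 10) : ℝ) * T ^ (1 / 4 : ℝ)) * l := by
        calc (b * Real.log T - a * Real.log T) * (2 * T ^ (-(3 / 10) : ℝ) * (2 * T ^ (b / 2)))
            = 4 * (b - a) * (T ^ (-(3 / 10) : ℝ) * T ^ (b / 2)) * l := by rw [hl]; ring
          _ ≤ _ := by gcongr
      have h9 : 4 * (b - a) * (T ^ (-(3 / 10) : ℝ) * T ^ (1 / 4 : ℝ)) * l ≤ Real.exp (-(2 * κ)) * c := by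
        calc 4 * (b - a) * (T ^ (-(3 / 10) : ℝ) * T ^ (1 / 4 : ℝ)) * l
            ≤ 4 * (b - a) * (T ^ (-(3 / 10) : ℝ) * T ^ (1 / 4 : ℝ)) *
              (Real.exp (-(2 * κ)) * c / (4 * (b - a)) * T ^ (1 / 20 : ℝ)) := by gcongr
          _ = Real.exp (-(2 * κ)) * c * (T ^ (-(3 / 10) : ℝ) * T ^ (1 / 4 : ℝ) * T ^ (1 / 20 : ℝ)) := by
              field_simp
          _ = _ := by rw [h7, mul_one]
      have h10 : Real.exp (-(2 * κ)) * c ≤ m0 / 2 := by
        have h11 : 2 * Real.exp (-(2 * κ)) * c ≤ 2 * Real.exp (-(2 * κ)) * P0 := by gcongr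
        linarith
      linarith
    have h6 : ‖(m0 : ℂ)‖ = m0 := by
      rw [Complex.norm_real, Real.norm_eq_abs, abs_of_pos hm0pos]
    have h7 : ‖(m0 : ℂ)‖ ≤ ‖F t0 + (m0 : ℂ)‖ + ‖F t0‖ := by
      have := norm_sub_le (F t0 + (m0 : ℂ)) (F t0)
      rwa [add_sub_cancel_left] at this
    linarith
  refine (measure_mono hsub).trans ((cheb F hFc T m0 _ hTpos.le hm0pos hV).trans ?_)
  apply ENNReal.ofReal_le_ofReal
  -- the final estimate
  have hE : Real.exp (-(2 * κ)) ^ 2 * Real.exp (4 * κ) = 1 := by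
    rw [← Real.exp_nat_mul, ← Real.exp_add]
    push_cast
    rw [show (2 : ℝ) * -(2 * κ) + 4 * κ = 0 by ring, Real.exp_zero]
  have h3 : 4 / m0 ^ 2 ≤ Real.exp (4 * κ) / P0 ^ 2 := by
    rw [div_le_div_iff₀ (by positivity) (by positivity)]
    have h4 : (2 * Real.exp (-(2 * κ)) * P0) ^ 2 ≤ m0 ^ 2 := by gcongr
    calc 4 * P0 ^ 2 = 4 * P0 ^ 2 * (Real.exp (-(2 * κ)) ^ 2 * Real.exp (4 * κ)) := by rw [hE, mul_one]
      _ = Real.exp (4 * κ) * (2 * Real.exp (-(2 * κ)) * P0) ^ 2 := by ring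
      _ ≤ Real.exp (4 * κ) * m0 ^ 2 := by gcongr
  have hX0 : 0 ≤ C * T * (P0 / W + (P0 / W) ^ 2) + C := by positivity
  calc 4 / m0 ^ 2 * (C * T * (P0 / W + (P0 / W) ^ 2) + C)
      ≤ Real.exp (4 * κ) / P0 ^ 2 * (C * T * (P0 / W + (P0 / W) ^ 2) + C) := by gcongr
    _ = Real.exp (4 * κ) * C * (T * (1 / (P0 * W) + 1 / W ^ 2) + 1 / P0 ^ 2) := by
        field_simp
    _ ≤ Real.exp (4 * κ) * C * (T * (1 / (c * W) + 1 / W ^ 2) + 1 / c ^ 2) := by gcongr
    _ ≤ Real.exp (4 * κ) * C * (T * (1 / (c * W) + 1 / W) + 1 / c ^ 2) := by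
        have : 1 / W ^ 2 ≤ 1 / W := by
          apply one_div_le_one_div_of_le hWpos
          nlinarith
        gcongr
    _ ≤ η * T := by
        have g5 : Real.exp (4 * κ) * C * (1 / (c * W)) ≤ η / 4 := by
          rw [mul_one_div, div_le_iff₀ (by positivity), hW]
          rw [div_le_iff₀ (by positivity)] at e5
          nlinarith
        have g6 : Real.exp (4 * κ) * C * (1 / W) ≤ η / 4 := by
          rw [mul_one_div, div_le_iff₀ (by positivity), hW]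
          rw [div_le_iff₀ (by positivity)] at e6
          nlinarith
        have g7 : Real.exp (4 * κ) * C * (1 / c ^ 2) ≤ η / 2 * T := by
          rw [mul_one_div, div_le_iff₀ (by positivity)]
          rw [div_le_iff₀ (by positivity)] at e7
          nlinarith
        calc Real.exp (4 * κ) * C * (T * (1 / (c * W) + 1 / W) + 1 / c ^ 2)
            = T * (Real.exp (4 * κ) * C * (1 / (c * W))) + T * (Real.exp (4 * κ) * C * (1 / W)) +
              Real.exp (4 * κ) * C * (1 / c ^ 2) := by ring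
          _ ≤ T * (η / 4) + T * (η / 4) + η / 2 * T := by gcongr
          _ = η * T := by ring

end Pool.Agent.W797.BH
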