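import Pool.Agent.W475.BH.Stm

/-!
# Project BH, task EN, part 1 (helper797): the tested and averaged series
-/

set_option autoImplicit false

namespace Pool.Agent.W797.BH

open Complex MeasureTheory Filter Topology Pool.Agent.W475.BH

/-- partial sums of the local Dirichlet series -/
noncomputable def sn (κ : ℝ) (s : Finset ℕ) (lam t : ℝ) : ℂ := ∑ n ∈ s,
  cc κ n * (n : ℂ) ^ (-(1 / 2) - I * t) * ((Real.exp (-(κ * (Real.log n - lam) ^ 2)) : ℝ) : ℂ)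

lemma cpow_eq (n : ℕ) (hn : 1 ≤ n) (t : ℝ) :
    (n : ℂ) ^ (-(1 / 2) - I * t) =
      (((n : ℝ) ^ (-(1 / 2) : ℝ) : ℝ) : ℂ) * cexp (-(I * t * (Real.log n : ℂ))) := by
  have hn0 : (n : ℂ) ≠ 0 := by exact_mod_cast (by omega : n ≠ 0)
  have hnr : (0 : ℝ) < n := by exact_mod_cast hn
  rw [Complex.cpow_def_of_ne_zero hn0, ← Complex.natCast_log, Real.rpow_def_of_pos hnr, Complex.ofReal_exp,
    ← Complex.exp_add]
  congr 1
  push_cast
  ring

lemma norm_exp_aux (t L : ℝ) : ‖cexp (-(I * t * (L : ℂ)))‖ = 1 := by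
  have : -(I * t * (L : ℂ)) = ((-(t * L) : ℝ) : ℂ) * I := by
    push_cast
    ring
  rw [this, Complex.norm_exp_ofReal_mul_I]

lemma norm_cc (κ : ℝ) (n : ℕ) : ‖cc κ n‖ = 1 := by
  unfold cc
  rw [mul_comm, Complex.norm_exp_ofReal_mul_I]

lemma norm_cpow (n : ℕ) (hn : 1 ≤ n) (t : ℝ) :
    ‖(n : ℂ) ^ (-(1 / 2) - I * t)‖ = (n : ℝ) ^ (-(1 / 2) : ℝ) := by
  rw [cpow_eq n hn t, norm_mul, norm_exp_aux, mul_one, Complex.norm_real, Real.norm_eq_abs,
    abs_of_nonneg (by positivity)]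

/-- norm of a term -/
lemma norm_term (κ : ℝ) (n : ℕ) (hn : 1 ≤ n) (lam t : ℝ) :
    ‖cc κ n * (n : ℂ) ^ (-(1 / 2) - I * t) * ((Real.exp (-(κ * (Real.log n - lam) ^ 2)) : ℝ) : ℂ)‖ =
      (n : ℝ) ^ (-(1 / 2) : ℝ) * Real.exp (-(κ * (Real.log n - lam) ^ 2)) := by
  rw [norm_mul, norm_mul, norm_cc, norm_cpow n hn t, one_mul, Complex.norm_real, Real.norm_eq_abs,
    abs_of_pos (Real.exp_pos _)]

/-- product of two terms -/
lemma term_mul (κ : ℝ) (n p : ℕ) (hn : 1 ≤ n) (hp : 1 ≤ p) (lam t : ℝ) :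
    (cc κ n * (n : ℂ) ^ (-(1 / 2) - I * t) * ((Real.exp (-(κ * (Real.log n - lam) ^ 2)) : ℝ) : ℂ)) *
      (starRingEnd ℂ) (cc κ p * (p : ℂ) ^ (-(1 / 2) - I * t) *
        ((Real.exp (-(κ * (Real.log p - lam) ^ 2)) : ℝ) : ℂ)) =
    ((((n : ℝ) * p) ^ (-(1 / 2) : ℝ) : ℝ) : ℂ) * (cc κ n * (starRingEnd ℂ) (cc κ p)) *
      cexp (-(I * t * (Real.log ((n : ℝ) / p) : ℂ))) *
      ((Real.exp (-(κ * (Real.log n - lam) ^ 2) - κ * (Real.log p - lam) ^ 2) : ℝ) : ℂ) := by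
  have hnr : (0 : ℝ) < n := by exact_mod_cast hn
  have hpr : (0 : ℝ) < p := by exact_mod_cast hp
  rw [cpow_eq n hn t, cpow_eq p hp t, map_mul, map_mul, map_mul, Complex.conj_ofReal, Complex.conj_ofReal,
    ← Complex.exp_conj, Real.mul_rpow hnr.le hpr.le, Real.log_div hnr.ne' hpr.ne', sub_eq_add_neg
      (-(κ * (Real.log n - lam) ^ 2)), Real.exp_add]
  have e1 : (starRingEnd ℂ) (-(I * t * (Real.log p : ℂ))) = I * t * (Real.log p : ℂ) := by
    rw [map_neg, map_mul, map_mul, Complex.conj_I, Complex.conj_ofReal, Complex.conj_ofReal]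
    ring
  have e2 : cexp (-(I * t * ((Real.log n - Real.log p : ℝ) : ℂ))) =
      cexp (-(I * t * (Real.log n : ℂ))) * cexp (I * t * (Real.log p : ℂ)) := by
    rw [← Complex.exp_add]
    congr 1
    push_cast
    ring
  rw [e1, e2]
  push_cast
  ring

/-- the inner integral -/
lemma inner_eq (κ A B : ℝ) (s P : Finset ℕ) (hs : ∀ n ∈ s, 1 ≤ n) (hP : ∀ p ∈ P, 1 ≤ p) (t : ℝ) :
    ∫ lam in A..B, sn κ s lam t * (starRingEnd ℂ) (sn κ P lam t) =
      ∑ q ∈ s ×ˢ P, ((((q.1 : ℝ) * q.2) ^ (-(1 / 2) : ℝ) * Gk κ A B (Real.log q.1) (Real.log q.2) : ℝ) : ℂ) *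
        (cc κ q.1 * (starRingEnd ℂ) (cc κ q.2)) * cexp (-(I * t * (Real.log ((q.1 : ℝ) / q.2) : ℂ))) := by
  have h1 : ∀ lam : ℝ, sn κ s lam t * (starRingEnd ℂ) (sn κ P lam t) = ∑ q ∈ s ×ˢ P,
      (((((q.1 : ℝ) * q.2) ^ (-(1 / 2) : ℝ) : ℝ) : ℂ) * (cc κ q.1 * (starRingEnd ℂ) (cc κ q.2)) *
      cexp (-(I * t * (Real.log ((q.1 : ℝ) / q.2) : ℂ)))) *
      ((Real.exp (-(κ * (Real.log q.1 - lam) ^ 2) - κ * (Real.log q.2 - lam) ^ 2) : ℝ) : ℂ) := by
    intro lam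
    unfold sn
    rw [map_sum, Finset.sum_mul_sum, Finset.sum_product]
    apply Finset.sum_congr rfl
    intro n hn
    apply Finset.sum_congr rfl
    intro p hp
    exact term_mul κ n p (hs n hn) (hP p hp) lam t
  simp_rw [h1]
  rw [intervalIntegral.integral_finsetSum]
  · apply Finset.sum_congr rfl
    intro q _
    rw [intervalIntegral.integral_const_mul, intervalIntegral.integral_ofReal]
    unfold Gk
    push_cast
    ring
  · intro q _
    apply Continuous.intervalIntegrable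
    fun_prop

/-- the tested and averaged series -/
lemma R_eq (κ A B W t0 : ℝ) (s P : Finset ℕ) (hs : ∀ n ∈ s, 1 ≤ n) (hP : ∀ p ∈ P, 1 ≤ p) :
    ((1 / W : ℝ) : ℂ) * ∫ h in (0 : ℝ)..W, ∫ lam in A..B,
      sn κ s lam (t0 + h) * (starRingEnd ℂ) (sn κ P lam (t0 + h)) =
      ∑ q ∈ s ×ˢ P, aw κ A B W q.1 q.2 * cexp (-(I * t0 * (Real.log ((q.1 : ℝ) / q.2) : ℂ))) := by
  simp_rw [inner_eq κ A B s P hs hP]
  have h1 : ∀ h : ℝ, ∀ q : ℕ × ℕ,
      ((((q.1 : ℝ) * q.2) ^ (-(1 / 2) : ℝ) * Gk κ A B (Real.log q.1) (Real.log q.2) : ℝ) : ℂ) *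
        (cc κ q.1 * (starRingEnd ℂ) (cc κ q.2)) *
          cexp (-(I * ((t0 + h : ℝ) : ℂ) * (Real.log ((q.1 : ℝ) / q.2) : ℂ))) =
      (((((q.1 : ℝ) * q.2) ^ (-(1 / 2) : ℝ) * Gk κ A B (Real.log q.1) (Real.log q.2) : ℝ) : ℂ) *
        (cc κ q.1 * (starRingEnd ℂ) (cc κ q.2)) *
          cexp (-(I * t0 * (Real.log ((q.1 : ℝ) / q.2) : ℂ)))) *
        cexp (-(I * h * (Real.log ((q.1 : ℝ) / q.2) : ℂ))) := by
    intro h q
    have e : cexp (-(I * ((t0 + h : ℝ) : ℂ) * (Real.log ((q.1 : ℝ) / q.2) : ℂ))) =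
        cexp (-(I * t0 * (Real.log ((q.1 : ℝ) / q.2) : ℂ))) *
          cexp (-(I * h * (Real.log ((q.1 : ℝ) / q.2) : ℂ))) := by
      rw [← Complex.exp_add]
      congr 1
      push_cast
      ring
    rw [e]
    ring
  simp_rw [h1]
  rw [intervalIntegral.integral_finsetSum]
  · rw [Finset.mul_sum]
    apply Finset.sum_congr rfl
    intro q _
    rw [intervalIntegral.integral_const_mul]
    unfold aw
    ring
  · intro q _
    apply Continuous.intervalIntegrable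
    fun_prop

/-- bound of the tested and averaged series -/
lemma R_norm (κ A B W t0 S D : ℝ) (s P : Finset ℕ) (hs : ∀ n ∈ s, 1 ≤ n) (hP : ∀ p ∈ P, 1 ≤ p)
    (hAB : A ≤ B) (hW : 0 < W) (hS0 : 0 ≤ S)
    (hS : ∀ h lam : ℝ, 0 ≤ h → h ≤ W → A ≤ lam → lam ≤ B → ‖sn κ s lam (t0 + h)‖ ≤ S)
    (hD : ∀ t lam : ℝ, ‖sn κ P lam t‖ ≤ D) :
    ‖∑ q ∈ s ×ˢ P, aw κ A B W q.1 q.2 * cexp (-(I * t0 * (Real.log ((q.1 : ℝ) / q.2) : ℂ)))‖ ≤
      (B - A) * (S * D) := by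
  rw [← R_eq κ A B W t0 s P hs hP, norm_mul, Complex.norm_real, Real.norm_eq_abs, abs_of_pos (by positivity)]
  have h1 : ‖∫ h in (0 : ℝ)..W, ∫ lam in A..B,
      sn κ s lam (t0 + h) * (starRingEnd ℂ) (sn κ P lam (t0 + h))‖ ≤ (S * D * |B - A|) * |W - 0| := by
    apply intervalIntegral.norm_integral_le_of_norm_le_const
    intro h hh
    rw [Set.uIoc_of_le hW.le] at hh
    apply intervalIntegral.norm_integral_le_of_norm_le_const
    intro lam hlam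
    rw [Set.uIoc_of_le hAB] at hlam
    rw [norm_mul, RCLike.norm_conj]
    exact mul_le_mul (hS h lam hh.1.le hh.2 hlam.1.le hlam.2) (hD _ _) (norm_nonneg _) hS0
  rw [sub_zero, abs_of_pos hW, abs_of_nonneg (sub_nonneg.mpr hAB)] at h1
  calc 1 / W * _ ≤ 1 / W * ((S * D * (B - A)) * W) := mul_le_mul_of_nonneg_left h1 (by positivity)
    _ = (B - A) * (S * D) := by field_simp

/-- the diagonal coefficients -/
lemma aw_diag (κ A B W : ℝ) (hW : 0 < W) (p : ℕ) (hp : 1 ≤ p) :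
    aw κ A B W p p = ((1 / (p : ℝ) * Gk κ A B (Real.log p) (Real.log p) : ℝ) : ℂ) := by
  have hpr : (0 : ℝ) < p := by exact_mod_cast hp
  unfold aw
  have e1 : ((p : ℝ) * p) ^ (-(1 / 2) : ℝ) = 1 / (p : ℝ) := by
    rw [Real.mul_rpow hpr.le hpr.le, ← Real.rpow_add hpr]
    norm_num
    rw [Real.rpow_neg_one]
  have e2 : cc κ p * (starRingEnd ℂ) (cc κ p) = 1 := by
    rw [Complex.mul_conj, Complex.normSq_eq_norm_sq, norm_cc]
    norm_num
  have e3 : ∫ h in (0 : ℝ)..W, cexp (-(I * h * (Real.log ((p : ℝ) / p) : ℂ))) = (W : ℂ) := by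
    rw [div_self hpr.ne', Real.log_one]
    simp
  rw [e1, e2, e3]
  have hWc : (W : ℂ) ≠ 0 := by exact_mod_cast hW.ne'
  push_cast
  field_simp

/-- lower bound of `Gk` on the diagonal -/
lemma Gk_low (κ A B u : ℝ) (hκ : 0 < κ) (h1 : A + 1 ≤ u) (h2 : u ≤ B - 1) :
    2 * Real.exp (-(2 * κ)) ≤ Gk κ A B u u := by
  unfold Gk
  have hcont : Continuous fun lam : ℝ => Real.exp (-(κ * (u - lam) ^ 2) - κ * (u - lam) ^ 2) := by
    fun_prop
  have hi : ∀ x y : ℝ, IntervalIntegrable (fun lam : ℝ => Real.exp (-(κ * (u - lam) ^ 2) - κ * (u - lam) ^ 2))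
      volume x y := fun x y => hcont.intervalIntegrable x y
  have e : ∫ lam in (u - 1)..(u + 1), Real.exp (-(κ * (u - lam) ^ 2) - κ * (u - lam) ^ 2) ≤
      ∫ lam in A..B, Real.exp (-(κ * (u - lam) ^ 2) - κ * (u - lam) ^ 2) := by
    apply intervalIntegral.integral_mono_interval (by linarith) (by linarith) (by linarith) _ (hi A B)
    exact Filter.Eventually.of_forall (fun x => (Real.exp_pos _).le)
  refine le_trans ?_ e
  have e2 : ∫ _ in (u - 1)..(u + 1), Real.exp (-(2 * κ)) = 2 * Real.exp (-(2 * κ)) := by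
    rw [intervalIntegral.integral_const, smul_eq_mul]
    ring
  rw [← e2]
  apply intervalIntegral.integral_mono_on (by linarith) (by simp) (hi _ _)
  intro x hx
  apply Real.exp_le_exp.mpr
  have h3 : (u - x) ^ 2 ≤ 1 := by
    have h4 : |u - x| ≤ 1 := by
      rw [abs_le]
      constructor <;> linarith [hx.1, hx.2]
    calc (u - x) ^ 2 = |u - x| ^ 2 := (sq_abs _).symm
      _ ≤ 1 ^ 2 := by gcongr
      _ = 1 := one_pow 2
  nlinarith

end Pool.Agent.W797.BH
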