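import Pool.Agent.W797.BH.En1

/-!
# Project BH, task EN, part 2 (helper797): the tail of the series and the size of the test polynomial
-/

set_option autoImplicit false

namespace Pool.Agent.W797.BH

open Complex MeasureTheory Filter Topology Pool.Agent.W475.BH

theorem sum_inv' (n : ℕ) : ∑ i ∈ Finset.range (n + 1), (1 : ℝ) / ((i : ℝ) + 1) ^ 2 ≤ 2 - 1 / ((n : ℝ) + 1) := by
  induction n with
  | zero => norm_num
  | succ n ih =>
    rw [Finset.sum_range_succ]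
    have h : (1 : ℝ) / (((n + 1 : ℕ) : ℝ) + 1) ^ 2 ≤ 1 / ((n : ℝ) + 1) - 1 / (((n + 1 : ℕ) : ℝ) + 1) := by
      have hn : (0 : ℝ) ≤ n := Nat.cast_nonneg n
      push_cast
      rw [div_sub_div _ _ (by positivity) (by positivity), div_le_div_iff₀ (by positivity) (by positivity)]
      nlinarith
    linarith

theorem sum_inv (n : ℕ) : ∑ i ∈ Finset.range n, (1 : ℝ) / ((i : ℝ) + 1) ^ 2 ≤ 2 := by
  cases n with
  | zero => simp
  | succ n =>
    have := sum_inv' n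
    have h : (0 : ℝ) ≤ 1 / ((n : ℝ) + 1) := by positivity
    linarith

theorem summable_inv : Summable (fun i : ℕ => (1 : ℝ) / ((i : ℝ) + 1) ^ 2) :=
  summable_of_sum_range_le (fun i => by positivity) sum_inv

theorem tsum_inv : ∑' i : ℕ, (1 : ℝ) / ((i : ℝ) + 1) ^ 2 ≤ 2 :=
  Real.tsum_le_of_sum_range_le (fun i => by positivity) sum_inv

/-- sum of inverse square roots -/
theorem sum_sqrt (M : ℕ) : ∑ i ∈ Finset.range M, ((i + 1 : ℕ) : ℝ) ^ (-(1 / 2) : ℝ) ≤ 2 * Real.sqrt M := by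
  induction M with
  | zero => simp
  | succ M ih =>
    rw [Finset.sum_range_succ]
    have hM : (0 : ℝ) ≤ M := Nat.cast_nonneg M
    have h1 : (((M + 1 : ℕ) : ℝ)) ^ (-(1 / 2) : ℝ) = 1 / Real.sqrt ((M + 1 : ℕ) : ℝ) := by
      rw [Real.rpow_neg (by positivity), Real.sqrt_eq_rpow, inv_eq_one_div]
    rw [h1]
    set x := Real.sqrt ((M + 1 : ℕ) : ℝ) with hx
    set y := Real.sqrt (M : ℝ) with hy
    have hx2 : x ^ 2 = M + 1 := by
      rw [hx, Real.sq_sqrt (by positivity)]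
      push_cast
      ring
    have hy2 : y ^ 2 = M := by rw [hy, Real.sq_sqrt hM]
    have hx0 : 0 < x := Real.sqrt_pos.mpr (by positivity)
    have hy0 : 0 ≤ y := Real.sqrt_nonneg _
    have h2 : 1 / x ≤ 2 * x - 2 * y := by
      rw [div_le_iff₀ hx0]
      nlinarith [sq_nonneg (x - y)]
    linarith

/-- size of the test polynomial -/
theorem D_bound (κ : ℝ) (hκ : 0 < κ) (a b T : ℝ) (hT : 1 ≤ T) (t lam : ℝ) :
    ‖sn κ (PP a b T) lam t‖ ≤ 2 * T ^ (b / 2) := by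
  have hPP : ∀ p ∈ PP a b T, 1 ≤ p := by
    intro p hp
    unfold PP at hp
    rw [Finset.mem_filter] at hp
    exact hp.2.1.one_lt.le
  have h1 : ‖sn κ (PP a b T) lam t‖ ≤ ∑ p ∈ PP a b T, (p : ℝ) ^ (-(1 / 2) : ℝ) := by
    unfold sn
    refine (norm_sum_le _ _).trans (Finset.sum_le_sum fun p hp => ?_)
    rw [norm_term κ p (hPP p hp)]
    have h2 : Real.exp (-(κ * (Real.log p - lam) ^ 2)) ≤ 1 := by
      rw [Real.exp_le_one_iff]
      have : 0 ≤ κ * (Real.log p - lam) ^ 2 := by positivity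
      linarith
    exact mul_le_of_le_one_right (by positivity) h2
  have h2 : ∑ p ∈ PP a b T, (p : ℝ) ^ (-(1 / 2) : ℝ) ≤
      ∑ i ∈ Finset.range ⌊T ^ b⌋₊, ((i + 1 : ℕ) : ℝ) ^ (-(1 / 2) : ℝ) := by
    rw [← Finset.sum_image (f := fun m : ℕ => (m : ℝ) ^ (-(1 / 2) : ℝ)) (g := fun i : ℕ => i + 1)
      (s := Finset.range ⌊T ^ b⌋₊) (fun x _ y _ h => by simpa using h)]
    apply Finset.sum_le_sum_of_subset_of_nonneg
    · intro p hp
      have h3 := hPP p hp
      unfold PP at hp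
      rw [Finset.mem_filter, Finset.mem_range] at hp
      rw [Finset.mem_image]
      exact ⟨p - 1, Finset.mem_range.mpr (by omega), by omega⟩
    · intro i _ _
      positivity
  have h3 : 2 * Real.sqrt (⌊T ^ b⌋₊ : ℝ) ≤ 2 * T ^ (b / 2) := by
    have h4 : (⌊T ^ b⌋₊ : ℝ) ≤ T ^ b := Nat.floor_le (by positivity)
    have h5 : Real.sqrt (T ^ b) = T ^ (b / 2) := by
      rw [Real.sqrt_eq_rpow, ← Real.rpow_mul (by linarith)]
      congr 1
      ring
    rw [← h5]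
    gcongr
  exact h1.trans (h2.trans ((sum_sqrt _).trans h3))

/-- terms of the tail -/
theorem tail_term (κ b γ T lam : ℝ) (hκ : 0 < κ) (hb : 0 < b) (hbγ : b < γ) (hT : 1 < T)
    (hbig : 2 + 2 / γ ≤ κ * (1 - b / γ) ^ 2 * γ * Real.log T) (hlam : lam ≤ b * Real.log T)
    (m : ℕ) (hm : T ^ γ < m) :
    (m : ℝ) ^ (-(1 / 2) : ℝ) * Real.exp (-(κ * (Real.log m - lam) ^ 2)) ≤ T ^ (-2 : ℝ) * (1 / (m : ℝ) ^ 2) := by
  have hγ : 0 < γ := hb.trans hbγ
  have hT0 : 0 < T := by linarith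
  have hl : 0 < Real.log T := Real.log_pos hT
  have hTγ : 1 ≤ T ^ γ := Real.one_le_rpow hT.le hγ.le
  have hm1 : (1 : ℝ) ≤ m := hTγ.trans hm.le
  have hm0 : (0 : ℝ) < m := by linarith
  set x := Real.log m with hx
  have hx1 : γ * Real.log T ≤ x := by
    rw [hx, ← Real.log_rpow hT0]
    exact Real.log_le_log (by positivity) hm.le
  have hx0 : 0 < x := lt_of_lt_of_le (by positivity) hx1
  have hc0 : 0 < 1 - b / γ := by
    have : b / γ < 1 := (div_lt_one hγ).mpr hbγ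
    linarith
  have h1 : (1 - b / γ) * x ≤ x - lam := by
    have h2 : b * Real.log T ≤ b / γ * x := by
      calc b * Real.log T = b / γ * (γ * Real.log T) := by field_simp
        _ ≤ b / γ * x := by gcongr
    linarith
  have h2 : (2 + 2 / γ) * x ≤ κ * (x - lam) ^ 2 := by
    calc (2 + 2 / γ) * x ≤ (κ * (1 - b / γ) ^ 2 * γ * Real.log T) * x := by gcongr
      _ = κ * (1 - b / γ) ^ 2 * (γ * Real.log T) * x := by ring
      _ ≤ κ * (1 - b / γ) ^ 2 * x * x := by gcongr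
      _ = κ * ((1 - b / γ) * x) ^ 2 := by ring
      _ ≤ κ * (x - lam) ^ 2 := by gcongr
  have h3 : 2 * x + 2 * Real.log T ≤ κ * (x - lam) ^ 2 := by
    have : 2 * Real.log T ≤ 2 / γ * x := by
      calc 2 * Real.log T = 2 / γ * (γ * Real.log T) := by field_simp
        _ ≤ 2 / γ * x := by gcongr
    linarith
  have h4 : Real.exp (-(κ * (x - lam) ^ 2)) ≤ T ^ (-2 : ℝ) * (1 / (m : ℝ) ^ 2) := by
    have e : T ^ (-2 : ℝ) * (1 / (m : ℝ) ^ 2) = Real.exp (-(2 * x + 2 * Real.log T)) := by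
      have e1 : T ^ (-2 : ℝ) = Real.exp (-(2 * Real.log T)) := by
        rw [Real.rpow_def_of_pos hT0]
        congr 1
        ring
      have e2 : 1 / (m : ℝ) ^ 2 = Real.exp (-(2 * x)) := by
        rw [hx, Real.exp_neg, ← Real.log_rpow hm0, Real.exp_log (by positivity), one_div]
        norm_num
      rw [e1, e2, ← Real.exp_add]
      congr 1
      ring
    rw [e]
    exact Real.exp_le_exp.mpr (by linarith)
  have h5 : (m : ℝ) ^ (-(1 / 2) : ℝ) ≤ 1 := Real.rpow_le_one_of_one_le_of_nonpos hm1 (by norm_num)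
  calc (m : ℝ) ^ (-(1 / 2) : ℝ) * Real.exp (-(κ * (x - lam) ^ 2)) ≤ 1 * Real.exp (-(κ * (x - lam) ^ 2)) := by
        gcongr
    _ = Real.exp (-(κ * (x - lam) ^ 2)) := one_mul _
    _ ≤ _ := h4

/-- the tail of the series -/
theorem SS_tail (κ b γ T lam t : ℝ) (hκ : 0 < κ) (hb : 0 < b) (hbγ : b < γ) (hT : 2 ≤ T)
    (hbig : 2 + 2 / γ ≤ κ * (1 - b / γ) ^ 2 * γ * Real.log T) (hlam : lam ≤ b * Real.log T) :
    ‖SS κ lam t - sn κ (Finset.Icc 1 ⌊T ^ γ⌋₊) lam t‖ ≤ T ^ (-1 : ℝ) := by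
  have hT0 : 0 < T := by linarith
  set f : ℕ → ℂ := fun n => cc κ (n + 1) * ((n + 1 : ℕ) : ℂ) ^ (-(1 / 2) - I * t) *
    ((Real.exp (-(κ * (Real.log ((n + 1 : ℕ) : ℝ) - lam) ^ 2)) : ℝ) : ℂ) with hf
  have hSS : SS κ lam t = ∑' n, f n := by
    unfold SS
    congr 1
    funext n
    rw [hf]
    unfold cc
    push_cast
    rfl
  set N := ⌊T ^ γ⌋₊ with hN
  have hsn : sn κ (Finset.Icc 1 N) lam t = ∑ n ∈ Finset.range N, f n := by
    unfold sn
    have e : Finset.Icc 1 N = (Finset.range N).image (fun i => i + 1) := by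
      ext m
      rw [Finset.mem_Icc, Finset.mem_image]
      constructor
      · rintro ⟨h1, h2⟩
        exact ⟨m - 1, Finset.mem_range.mpr (by omega), by omega⟩
      · rintro ⟨i, hi, rfl⟩
        have := Finset.mem_range.mp hi
        omega
    rw [e, Finset.sum_image (fun x _ y _ h => by simpa using h)]
  have hbd : ∀ i : ℕ, ‖f (i + N)‖ ≤ T ^ (-2 : ℝ) * (1 / ((i : ℝ) + 1) ^ 2) := by
    intro i
    have h1 : 1 ≤ i + N + 1 := by omega
    have h2 : T ^ γ < ((i + N + 1 : ℕ) : ℝ) := by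
      have h3 : T ^ γ < (N : ℝ) + 1 := Nat.lt_floor_add_one _
      push_cast
      have : (0 : ℝ) ≤ i := Nat.cast_nonneg i
      linarith
    have h3 := tail_term κ b γ T lam hκ hb hbγ (by linarith) hbig hlam (i + N + 1) h2
    have h4 := norm_term κ (i + N + 1) h1 lam t
    have h5 : ‖f (i + N)‖ = ((i + N + 1 : ℕ) : ℝ) ^ (-(1 / 2) : ℝ) *
        Real.exp (-(κ * (Real.log ((i + N + 1 : ℕ) : ℝ) - lam) ^ 2)) := h4
    rw [h5]
    refine h3.trans ?_
    have h6 : ((i : ℝ) + 1) ≤ ((i + N + 1 : ℕ) : ℝ) := by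
      push_cast
      have : (0 : ℝ) ≤ N := Nat.cast_nonneg N
      linarith
    gcongr
  have hsum : Summable (fun i : ℕ => T ^ (-2 : ℝ) * ((1 : ℝ) / ((i : ℝ) + 1) ^ 2)) := summable_inv.mul_left _
  have hfs : Summable (fun i : ℕ => f (i + N)) := Summable.of_norm_bounded hsum hbd
  have hfs' : Summable f := (summable_nat_add_iff N).mp hfs
  have e : SS κ lam t - sn κ (Finset.Icc 1 N) lam t = ∑' i : ℕ, f (i + N) := by
    rw [hSS, hsn, ← hfs'.sum_add_tsum_nat_add N]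
    ring
  rw [e]
  calc ‖∑' i : ℕ, f (i + N)‖ ≤ ∑' i : ℕ, T ^ (-2 : ℝ) * ((1 : ℝ) / ((i : ℝ) + 1) ^ 2) :=
        tsum_of_norm_bounded hsum.hasSum hbd
    _ = T ^ (-2 : ℝ) * ∑' i : ℕ, (1 : ℝ) / ((i : ℝ) + 1) ^ 2 := tsum_mul_left
    _ ≤ T ^ (-2 : ℝ) * 2 := by
        have := tsum_inv
        gcongr
    _ ≤ T ^ (-2 : ℝ) * T := by gcongr
    _ = T ^ (-1 : ℝ) := by
        nth_rewrite 2 [← Real.rpow_one T]
        rw [← Real.rpow_add hT0]
        norm_num

end Pool.Agent.W797.BH
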